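import Mathlib
import Pool.Agent.H28.Sum.Main

/-!
# The sum problem for maximally monotone operators

Operators are identified with their graphs, subsets of the product of a real Banach space and
its dual.
-/

set_option autoImplicit false

namespace Pool.Agent.Results.MP_9cd69f_an.SumProblem

open Pool.Agent.H28.Sum

section Defs

variable {E : Type} [NormedAddCommGroup E] [NormedSpace ℝ E]

/-- monotone operators -/
def IsMonotone (T : Set (E × (E →L[ℝ] ℝ))) : Prop :=
  ∀ w ∈ T, ∀ w' ∈ T, 0 ≤ (w.2 - w'.2) (w.1 - w'.1)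

/-- maximally monotone operators: no monotone operator has a strictly larger graph -/
def IsMaxMonotone (T : Set (E × (E →L[ℝ] ℝ))) : Prop :=
  IsMonotone T ∧ ∀ T' : Set (E × (E →L[ℝ] ℝ)), IsMonotone T' → T ⊆ T' → T' = T

/-- the domain of an operator -/
def dom (T : Set (E × (E →L[ℝ] ℝ))) : Set E := {x | ∃ f, (x, f) ∈ T}

/-- the pointwise sum of two operators -/
def opSum (S T : Set (E × (E →L[ℝ] ℝ))) : Set (E × (E →L[ℝ] ℝ)) :=
  {w | ∃ f g, (w.1, f) ∈ S ∧ (w.1, g) ∈ T ∧ w.2 = f + g}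

/-- the normal cone operator of a set -/
def normalCone (C : Set E) : Set (E × (E →L[ℝ] ℝ)) :=
  {w | w.1 ∈ C ∧ ∀ c ∈ C, w.2 (c - w.1) ≤ 0}

/-- operators of type (FPV) -/
def IsFPV (T : Set (E × (E →L[ℝ] ℝ))) : Prop :=
  ∀ U : Set E, IsOpen U → Convex ℝ U → (U ∩ dom T).Nonempty →
    ∀ w : E × (E →L[ℝ] ℝ), w.1 ∈ U →
      (∀ w' ∈ T, w'.1 ∈ U → 0 ≤ (w.2 - w'.2) (w.1 - w'.1)) → w ∈ T

theorem IsMaxMonotone.mem {T : Set (E × (E →L[ℝ] ℝ))} (hT : IsMaxMonotone T)
    {w : E × (E →L[ℝ] ℝ)} (hw : ∀ w' ∈ T, 0 ≤ (w.2 - w'.2) (w.1 - w'.1)) : w ∈ T := by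
  have h1 : IsMonotone (insert w T) := by
    rintro u hu u' hu'
    rcases hu with rfl | hu
    · rcases hu' with rfl | hu'
      · simp
      · exact hw u' hu'
    · rcases hu' with rfl | hu'
      · have h2 := hw u hu
        have e : (u.2 - u'.2) (u.1 - u'.1) = (u'.2 - u.2) (u'.1 - u.1) := by
          rw [← neg_sub u'.2 u.2, ← neg_sub u'.1 u.1, map_neg]
          simp
        rw [e]
        exact h2
      · exact hT.1 u hu u' hu'
  rw [← hT.2 _ h1 (Set.subset_insert w T)]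
  exact Set.mem_insert w T

theorem IsMaxMonotone.of_mem {T : Set (E × (E →L[ℝ] ℝ))} (hT : IsMonotone T)
    (h : ∀ w, (∀ w' ∈ T, 0 ≤ (w.2 - w'.2) (w.1 - w'.1)) → w ∈ T) : IsMaxMonotone T :=
  ⟨hT, fun _ hT' hsub => Set.Subset.antisymm (fun w hw => h w (fun w' hw' => hT' w hw w' (hsub hw')))
    hsub⟩

end Defs

/-- the slab where the last coordinate is at most `1/2` in absolute value -/
def slab : Set X := {x | |x.2.2| ≤ 1 / 2}

theorem continuous_last : Continuous (fun x : X => x.2.2) := continuous_snd.comp continuous_snd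

theorem continuous_mid : Continuous (fun x : X => x.2.1) := continuous_fst.comp continuous_snd

theorem slab_closed : IsClosed slab :=
  isClosed_le continuous_last.abs continuous_const

theorem slab_convex : Convex ℝ slab := by
  intro x hx y hy a b ha hb hab
  show |a * x.2.2 + b * y.2.2| ≤ 1 / 2
  have hx' : |x.2.2| ≤ 1 / 2 := hx
  have hy' : |y.2.2| ≤ 1 / 2 := hy
  calc |a * x.2.2 + b * y.2.2| ≤ |a * x.2.2| + |b * y.2.2| := abs_add_le _ _
    _ = a * |x.2.2| + b * |y.2.2| := by rw [abs_mul, abs_mul, abs_of_nonneg ha, abs_of_nonneg hb]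
    _ ≤ a * (1 / 2) + b * (1 / 2) := by
        apply add_le_add (mul_le_mul_of_nonneg_left hx' ha) (mul_le_mul_of_nonneg_left hy' hb)
    _ = 1 / 2 := by rw [← add_mul, hab, one_mul]

theorem normalCone_mono {E : Type} [NormedAddCommGroup E] [NormedSpace ℝ E] (C : Set E) :
    IsMonotone (normalCone C) := by
  rintro w ⟨hw, hw'⟩ u ⟨hu, hu'⟩
  have h1 := hw' u.1 hu
  have h2 := hu' w.1 hw
  have e : (w.2 - u.2) (w.1 - u.1) = -(w.2 (u.1 - w.1)) - u.2 (w.1 - u.1) := by
    show w.2 (w.1 - u.1) - u.2 (w.1 - u.1) = _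
    rw [← neg_sub u.1 w.1, map_neg]
  rw [e]
  linarith

theorem normalCone_slab_max : IsMaxMonotone (normalCone slab) := by
  apply IsMaxMonotone.of_mem (normalCone_mono slab)
  intro w hw
  have hx : w.1 ∈ slab := by
    by_contra hx
    have hx' : 1 / 2 < |w.1.2.2| := not_le.1 hx
    -- the sign of the last coordinate
    obtain ⟨σ, hσ, hσ2⟩ : ∃ σ : ℝ, |σ| = 1 ∧ |w.1.2.2| = σ * w.1.2.2 := by
      rcases abs_cases w.1.2.2 with ⟨h, h0⟩ | ⟨h, h0⟩
      · exact ⟨1, by simp, by rw [h, one_mul]⟩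
      · exact ⟨-1, by simp, by rw [h]; ring⟩
    have hσσ : σ * σ = 1 := by
      have := abs_mul_abs_self σ
      rw [hσ] at this
      linarith
    let y : X := (w.1.1, w.1.2.1, σ * (1 / 2))
    let e : X := (0, 0, w.1.2.2 - σ * (1 / 2))
    have hye : w.1 - y = e := by
      show (w.1.1 - w.1.1, w.1.2.1 - w.1.2.1, w.1.2.2 - σ * (1 / 2)) = (0, 0, _)
      rw [sub_self, sub_self]
    have hpos : 0 < σ * (w.1.2.2 - σ * (1 / 2)) := by
      have : σ * (w.1.2.2 - σ * (1 / 2)) = |w.1.2.2| - 1 / 2 := by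
        rw [hσ2]
        linear_combination (-1 / 2) * hσσ
      rw [this]
      linarith
    -- a large normal functional
    let c : ℝ := (|w.2 e| + 1) / (σ * (w.1.2.2 - σ * (1 / 2)))
    have hc : 0 ≤ c := by positivity
    have hmem : (y, mkF 0 0 (c * σ)) ∈ normalCone slab := by
      refine ⟨?_, ?_⟩
      · show |σ * (1 / 2)| ≤ 1 / 2
        rw [abs_mul, hσ, one_mul, abs_of_pos (by norm_num : (0 : ℝ) < 1 / 2)]
      · intro z hz
        have hz' : |z.2.2| ≤ 1 / 2 := hz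
        rw [mkF_apply]
        show (0 : ℝ) + (0 * _ + c * σ * (z.2.2 - σ * (1 / 2))) ≤ 0
        have h1 : σ * z.2.2 ≤ 1 / 2 := by
          calc σ * z.2.2 ≤ |σ * z.2.2| := le_abs_self _
            _ = |z.2.2| := by rw [abs_mul, hσ, one_mul]
            _ ≤ 1 / 2 := hz'
        have h2 : c * σ * (z.2.2 - σ * (1 / 2)) = c * (σ * z.2.2 - 1 / 2) := by
          linear_combination (-c / 2) * hσσ
        rw [h2]
        have h3 : c * (σ * z.2.2 - 1 / 2) ≤ 0 :=
          mul_nonpos_of_nonneg_of_nonpos hc (by linarith)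
        linarith
    have h1 := hw _ hmem
    have h2 : (w.2 - mkF 0 0 (c * σ)) (w.1 - y) = w.2 e - (|w.2 e| + 1) := by
      rw [hye]
      show w.2 e - mkF 0 0 (c * σ) e = _
      rw [mkF_apply]
      show w.2 e - (0 + (0 * 0 + c * σ * (w.1.2.2 - σ * (1 / 2)))) = _
      have h3 : c * (σ * (w.1.2.2 - σ * (1 / 2))) = |w.2 e| + 1 := div_mul_cancel₀ _ hpos.ne'
      have h4 : c * σ * (w.1.2.2 - σ * (1 / 2)) = c * (σ * (w.1.2.2 - σ * (1 / 2))) := by ring
      rw [h4, h3]
      ring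
    rw [h2] at h1
    have := le_abs_self (w.2 e)
    linarith
  refine ⟨hx, ?_⟩
  intro c hc
  have h1 := hw (c, 0) ⟨hc, fun z _ => le_refl _⟩
  have h2 : 0 ≤ w.2 (w.1 - c) - 0 := h1
  rw [← neg_sub c w.1, map_neg] at h2
  linarith

/-- the hyperplane where the last coordinate vanishes -/
def hyp : Submodule ℝ X where
  carrier := {x | x.2.2 = 0}
  add_mem' := by
    intro a b ha hb
    show a.2.2 + b.2.2 = 0
    rw [show a.2.2 = 0 from ha, show b.2.2 = 0 from hb, add_zero]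
  zero_mem' := rfl
  smul_mem' := by
    intro c a ha
    show c * a.2.2 = 0
    rw [show a.2.2 = 0 from ha, mul_zero]

theorem normalCone_hyp (x : X) (f : X →L[ℝ] ℝ) :
    (x, f) ∈ normalCone (hyp : Set X) ↔ f ∈ NV x := by
  constructor
  · rintro ⟨hx, hf⟩
    have hx' : x ∈ hyp := hx
    refine ⟨hx, fun v hv => ?_⟩
    have h1 := hf (x + v) (hyp.add_mem hx' hv)
    have h2 := hf (x - v) (hyp.sub_mem hx' hv)
    have h3 : f (x + v - x) ≤ 0 := h1
    have h4 : f (x - v - x) ≤ 0 := h2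
    rw [add_sub_cancel_left] at h3
    have e : x - v - x = -v := by abel
    rw [e, map_neg] at h4
    linarith
  · rintro ⟨hx, hf⟩
    refine ⟨hx, fun c hc => ?_⟩
    have h1 : (c - x).2.2 = 0 := by
      show c.2.2 - x.2.2 = 0
      rw [hx, show c.2.2 = 0 from hc, sub_zero]
    exact (hf _ h1).le

theorem normalCone_hyp_max : IsMaxMonotone (normalCone (hyp : Set X)) := by
  apply IsMaxMonotone.of_mem (normalCone_mono _)
  intro w hw
  rw [show w = (w.1, w.2) from rfl, normalCone_hyp]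
  exact NV_max w.1 w.2 (fun y g hg => hw (y, g) ((normalCone_hyp y g).2 hg))

/-- On the Banach space of null families indexed by pairs of naturals, enlarged by two real
coordinates, there is a maximally monotone operator that is not of type (FPV), whose domain has a
closure that is not convex, whose sum with the normal cone operator of a closed convex set with
an interior point in its domain is not maximally monotone, and whose sum with the normal cone
operator of a closed subspace (a linear relation) is not maximally monotone although the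
differences of the two domains generate the space as a cone. -/
theorem result :
    ∃ T : Set ((ZeroAtInftyContinuousMap (ℕ × ℕ) ℝ × ℝ × ℝ) ×
        ((ZeroAtInftyContinuousMap (ℕ × ℕ) ℝ × ℝ × ℝ) →L[ℝ] ℝ)),
      IsMaxMonotone T ∧ ¬ IsFPV T ∧ ¬ Convex ℝ (closure (dom T)) ∧
      (∃ C : Set (ZeroAtInftyContinuousMap (ℕ × ℕ) ℝ × ℝ × ℝ),
        IsClosed C ∧ Convex ℝ C ∧ (dom T ∩ interior (dom (normalCone C))).Nonempty ∧
        IsMaxMonotone (normalCone C) ∧ ¬ IsMaxMonotone (opSum T (normalCone C))) ∧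
      (∃ H : Submodule ℝ (ZeroAtInftyContinuousMap (ℕ × ℕ) ℝ × ℝ × ℝ),
        IsClosed (H : Set (ZeroAtInftyContinuousMap (ℕ × ℕ) ℝ × ℝ × ℝ)) ∧
        IsMaxMonotone (normalCone (H : Set (ZeroAtInftyContinuousMap (ℕ × ℕ) ℝ × ℝ × ℝ))) ∧
        (∃ S : Submodule ℝ ((ZeroAtInftyContinuousMap (ℕ × ℕ) ℝ × ℝ × ℝ) ×
            ((ZeroAtInftyContinuousMap (ℕ × ℕ) ℝ × ℝ × ℝ) →L[ℝ] ℝ)),
          normalCone (H : Set (ZeroAtInftyContinuousMap (ℕ × ℕ) ℝ × ℝ × ℝ)) = (S : Set _)) ∧
        (∀ z, ∃ t : ℝ, 0 < t ∧ ∃ a ∈ dom (normalCone (H : Set _)), ∃ b ∈ dom T,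
          z = t • (a - b)) ∧
        ¬ IsMaxMonotone (opSum (normalCone (H : Set _)) T)) := by
  obtain ⟨T, hT0, hT, hmax⟩ := exists_max
  have hrel : ∀ w ∈ T, Rel w := fun w hw p hp => hT w hw p (hT0 hp)
  have hdom : ∀ t : ℝ, -1 ≤ t → t ≤ 1 → ((((0 : V), (0 : ℝ), t) : X), (0 : X →L[ℝ] ℝ)) ∈ T := by
    intro t h0 h1
    apply hT0
    refine ⟨_, _, _, _, PP.zero t h0 h1, ?_, ?_, rfl, rfl, rfl, rfl⟩
    · intro i n
      show (0 : ℝ) - 0 + 0 + 0 = 0
      ring
    · intro i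
      show ((0 : ℝ) - 0) / 2 = 0
      ring
  have hx0 : ∀ g : X →L[ℝ] ℝ, (x0, g) ∉ T := by
    intro g hg
    have h2 := (slab_pair (hrel _ hg) (by
      show |(0 : ℝ)| < 1
      rw [abs_zero]
      exact one_pos)).2.1
    have h3 : (1 : ℝ) = 0 := h2
    exact one_ne_zero h3
  refine ⟨T, IsMaxMonotone.of_mem hT hmax, ?_, ?_, ⟨slab, slab_closed, slab_convex, ?_,
    normalCone_slab_max, ?_⟩, ⟨hyp, ?_, normalCone_hyp_max, ?_, ?_, ?_⟩⟩
  · -- not of type (FPV)
    intro h
    have h1 := h {x | |x.2.2| < 1} (isOpen_lt continuous_last.abs continuous_const) ?_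
      ⟨((0 : V), (0 : ℝ), (0 : ℝ)), by
        show |(0 : ℝ)| < 1
        rw [abs_zero]
        exact one_pos, 0, hdom 0 (by norm_num) (by norm_num)⟩ (x0, f0) (by
        show |(0 : ℝ)| < 1
        rw [abs_zero]
        exact one_pos) (by
        intro w' hw' hw''
        rw [test_pair (hrel w' hw') hw'']
        exact zero_le_one)
    · exact hx0 f0 h1
    · intro x hx y hy a b ha hb hab
      show |a * x.2.2 + b * y.2.2| < 1
      have hx' : |x.2.2| < 1 := hx
      have hy' : |y.2.2| < 1 := hy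
      rcases eq_or_lt_of_le ha with ha0 | ha0
      · have hb1 : b = 1 := by linarith
        rw [← ha0, hb1, zero_mul, zero_add, one_mul]
        exact hy'
      · calc |a * x.2.2 + b * y.2.2| ≤ |a * x.2.2| + |b * y.2.2| := abs_add_le _ _
          _ = a * |x.2.2| + b * |y.2.2| := by
              rw [abs_mul, abs_mul, abs_of_nonneg ha, abs_of_nonneg hb]
          _ < a * 1 + b * 1 := add_lt_add_of_lt_of_le (mul_lt_mul_of_pos_left hx' ha0)
              (mul_le_mul_of_nonneg_left hy'.le hb)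
          _ = 1 := by rw [← add_mul, hab, one_mul]
  · -- the closure of the domain is not convex
    intro hconv
    obtain ⟨p, hp⟩ := exists_data (ss 0) (mm 0) (fun i hi => ss_zero 0 i hi) (mu 0)
      (1 + (1 / 2) ^ 0) ((1 / 2) ^ 0)
    have hpT : p ∈ T := hT0 ⟨_, _, _, _, PP.pos 0, hp⟩
    have h1 : p.1 ∈ closure (dom T) := subset_closure ⟨p.2, hpT⟩
    have h2 : (((0 : V), (0 : ℝ), (-1 : ℝ)) : X) ∈ closure (dom T) :=
      subset_closure ⟨0, hdom (-1) (by norm_num) (by norm_num)⟩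
    have h3 := hconv h1 h2 (by norm_num : (0 : ℝ) ≤ 1 / 2) (by norm_num : (0 : ℝ) ≤ 1 / 2)
      (by norm_num)
    have hO : IsOpen {x : X | |x.2.2| < 1 ∧ x.2.1 ≠ 0} :=
      (isOpen_lt continuous_last.abs continuous_const).inter
        (isOpen_ne_fun continuous_mid continuous_const)
    obtain ⟨-, -, ha, -, ht, -⟩ := hp
    have hmu : 0 < mu 0 := by
      unfold mu kap mm
      norm_num
    have hmem : (1 / 2 : ℝ) • p.1 + (1 / 2 : ℝ) • (((0 : V), (0 : ℝ), (-1 : ℝ)) : X) ∈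
        {x : X | |x.2.2| < 1 ∧ x.2.1 ≠ 0} := by
      constructor
      · show |(1 / 2 : ℝ) * p.1.2.2 + (1 / 2) * (-1)| < 1
        rw [ht]
        norm_num [abs_lt]
      · show (1 / 2 : ℝ) * p.1.2.1 + (1 / 2) * 0 ≠ 0
        rw [ha]
        have : (1 / 2 : ℝ) * mu 0 + 1 / 2 * 0 > 0 := by linarith
        exact this.ne'
    obtain ⟨x, ⟨hx1, hx2⟩, g, hg⟩ := mem_closure_iff.1 h3 _ hO hmem
    exact hx2 (slab_pair (hrel _ hg) hx1).2.1
  · -- the constraint qualification
    refine ⟨((0 : V), (0 : ℝ), (0 : ℝ)), ⟨0, hdom 0 (by norm_num) (by norm_num)⟩, ?_⟩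
    have h1 : {x : X | |x.2.2| < 1 / 2} ⊆ dom (normalCone slab) := by
      intro x hx
      have hx' : |x.2.2| < 1 / 2 := hx
      exact ⟨0, hx'.le, fun c _ => le_refl _⟩
    apply interior_maximal h1 (isOpen_lt continuous_last.abs continuous_const)
    show |(0 : ℝ)| < 1 / 2
    rw [abs_zero]
    norm_num
  · -- the sum with the normal cone operator of the slab
    intro h
    obtain ⟨f, g, hf, -, -⟩ := h.mem (w := (x0, f0)) (by
      rintro ⟨y, k⟩ ⟨f, g, hf, ⟨hg1, hg2⟩, rfl⟩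
      have hy : |y.2.2| ≤ 1 / 2 := hg1
      have h1 := test_pair (hrel _ hf) (by
        show |y.2.2| < 1
        linarith)
      have h2 := hg2 x0 (by
        show |(0 : ℝ)| ≤ 1 / 2
        rw [abs_zero]
        norm_num)
      have h3 : (f0 - f) (x0 - y) = 1 := h1
      have h4 : g (x0 - y) ≤ 0 := h2
      have e : (f0 - (f + g)) (x0 - y) = (f0 - f) (x0 - y) - g (x0 - y) := by
        show f0 (x0 - y) - (f (x0 - y) + g (x0 - y)) = f0 (x0 - y) - f (x0 - y) - g (x0 - y)
        ring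
      show 0 ≤ (f0 - (f + g)) (x0 - y)
      rw [e, h3]
      linarith)
    exact hx0 f hf
  · exact isClosed_eq continuous_last continuous_const
  · obtain ⟨S, hS⟩ := NV_linear
    refine ⟨S, Set.ext (fun w => ?_)⟩
    rw [show w = (w.1, w.2) from rfl, normalCone_hyp, hS]
    rfl
  · intro z
    have hH : ∀ a : X, a.2.2 = 0 → a ∈ dom (normalCone (hyp : Set X)) := fun a ha =>
      ⟨0, ha, fun c _ => le_refl _⟩
    rcases lt_trichotomy z.2.2 0 with hz | hz | hz
    · refine ⟨-z.2.2, by linarith, (-z.2.2)⁻¹ • z + ((0 : V), (0 : ℝ), (1 : ℝ)), hH _ ?_,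
        ((0 : V), (0 : ℝ), (1 : ℝ)), ⟨0, hdom 1 (by norm_num) (by norm_num)⟩, ?_⟩
      · show (-z.2.2)⁻¹ * z.2.2 + 1 = 0
        have : z.2.2 ≠ 0 := hz.ne
        field_simp
        ring
      · rw [add_sub_cancel_right, smul_smul, mul_inv_cancel₀ (by linarith), one_smul]
    · refine ⟨1, one_pos, z, hH z hz, ((0 : V), (0 : ℝ), (0 : ℝ)),
        ⟨0, hdom 0 (by norm_num) (by norm_num)⟩, ?_⟩
      rw [one_smul]
      have : (((0 : V), (0 : ℝ), (0 : ℝ)) : X) = 0 := rfl
      rw [this, sub_zero]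
    · refine ⟨z.2.2, hz, (z.2.2)⁻¹ • z + ((0 : V), (0 : ℝ), (-1 : ℝ)), hH _ ?_,
        ((0 : V), (0 : ℝ), (-1 : ℝ)), ⟨0, hdom (-1) (by norm_num) (by norm_num)⟩, ?_⟩
      · show (z.2.2)⁻¹ * z.2.2 + -1 = 0
        rw [inv_mul_cancel₀ hz.ne']
        ring
      · rw [add_sub_cancel_right, smul_smul, mul_inv_cancel₀ hz.ne', one_smul]
  · -- the sum with the normal cone operator of the hyperplane
    intro h
    obtain ⟨f, g, -, hg, -⟩ := h.mem (w := (x0, f0)) (by
      rintro ⟨y, k⟩ ⟨f, g, hf, hg, rfl⟩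
      have hf' := (normalCone_hyp y f).1 hf
      have hy : y.2.2 = 0 := hf'.1
      have h1 := test_pair (hrel _ hg) (by
        show |y.2.2| < 1
        rw [hy, abs_zero]
        exact one_pos)
      have h2 : (f0 - g) (x0 - y) = 1 := h1
      have h3 : f (x0 - y) = 0 := hf'.2 _ (by
        show (0 : ℝ) - y.2.2 = 0
        rw [hy, sub_zero])
      have e : (f0 - (f + g)) (x0 - y) = (f0 - g) (x0 - y) - f (x0 - y) := by
        show f0 (x0 - y) - (f (x0 - y) + g (x0 - y)) = f0 (x0 - y) - g (x0 - y) - f (x0 - y)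
        ring
      show 0 ≤ (f0 - (f + g)) (x0 - y)
      rw [e, h2, h3]
      norm_num)
    exact hx0 g hg

end Pool.Agent.Results.MP_9cd69f_an.SumProblem
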